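import Pool.Agent.Lib.MP_64d474_lc.Kal.MainR
import Pool.Agent.Lib.MP_64d474_lc.YnPoint

/-!
# Symbolic matrices of small branch width
-/

set_option autoImplicit false

open Finset Module Matrix

namespace Pool.Agent.Lib.MP_64d474_lc.BW

open Pool.Agent.Lib.MP_64d474_lc.Kal

/-- `Width w t L`: for every inner node of the tree `t` of positions, at most `w` rows and at most
`w` columns have both a position below the node and a position that is in `L` or in the rest of
`t` -/
def Width {a b : ℕ} (w : ℕ) : BT (Fin a × Fin b) → List (Fin a × Fin b) → Prop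
  | .nil, _ => True
  | .leaf _, _ => True
  | .node l r, L =>
    (((l.leaves ++ r.leaves).map Prod.fst).toFinset ∩ (L.map Prod.fst).toFinset).card ≤ w ∧
    (((l.leaves ++ r.leaves).map Prod.snd).toFinset ∩ (L.map Prod.snd).toFinset).card ≤ w ∧
    Width w l (r.leaves ++ L) ∧ Width w r (l.leaves ++ L)

section gen

variable {F : Type*} [Field F] {ρ : ℕ} {E : Type} [Fintype E] [DecidableEq E]

theorem cdim_le (P : E → Matrix (Fin ρ) (Fin ρ) F) (S : Finset E) (R : Finset (Fin ρ))
    (h : ∀ p ∈ S, ∀ u, u ∉ R → ∀ v, P p u v = 0) : cdim P S ≤ R.card := by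
  classical
  have h1 : csp P S ≤ Submodule.span F ((R.image fun u => (Pi.single u 1 : Fin ρ → F) :
      Finset (Fin ρ → F)) : Set (Fin ρ → F)) := by
    refine iSup₂_le fun p hp => ?_
    rintro _ ⟨x, rfl⟩
    have h2 : (P p).mulVecLin x = ∑ u ∈ R, (P p).mulVec x u • (Pi.single u 1 : Fin ρ → F) := by
      ext i
      rw [Matrix.mulVecLin_apply, Finset.sum_apply]
      by_cases hi : i ∈ R
      · rw [Finset.sum_eq_single i]
        · simp
        · intro j _ hj
          simp [Pi.single_apply, hj.symm]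
        · intro h3
          exact absurd hi h3
      · rw [Finset.sum_eq_zero]
        · simp only [Matrix.mulVec, dotProduct]
          exact Finset.sum_eq_zero fun v _ => by rw [h p hp i hi v, zero_mul]
        · intro j hj
          have : i ≠ j := fun h3 => hi (h3 ▸ hj)
          simp [Pi.single_apply, this]
    rw [h2]
    refine Submodule.sum_mem _ fun u hu => Submodule.smul_mem _ _ (Submodule.subset_span ?_)
    exact Finset.mem_coe.2 (Finset.mem_image_of_mem _ hu)
  have h2 := Submodule.finrank_mono h1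
  exact h2.trans ((finrank_span_finset_le_card _).trans Finset.card_image_le)

theorem cdim_add_le (P : E → Matrix (Fin ρ) (Fin ρ) F) (w : ℕ) (S : Finset E)
    (R₁ R₂ : Finset (Fin ρ)) (h1 : ∀ p ∈ S, ∀ u, u ∉ R₁ → ∀ v, P p u v = 0)
    (h2 : ∀ p, p ∉ S → ∀ u, u ∉ R₂ → ∀ v, P p u v = 0) (hw : (R₁ ∩ R₂).card ≤ w) :
    cdim P S + cdim P Sᶜ ≤ Fintype.card (Fin ρ) + w := by
  have e1 := cdim_le P S R₁ h1
  have e2 := cdim_le P Sᶜ R₂ fun p hp => h2 p (Finset.mem_compl.1 hp)
  have e3 := Finset.card_union_add_card_inter R₁ R₂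
  have e4 : (R₁ ∪ R₂).card ≤ Fintype.card (Fin ρ) := Finset.card_le_univ _
  omega

end gen

section mat

variable {F : Type*} [Field F] {a b m ρ : ℕ}

/-- the entry of a piece -/
def val (C : Matrix (Fin a) (Fin b) F) (B : Fin m → Matrix (Fin a) (Fin b) F)
    (p : (Fin a × Fin b) × Option (Fin m)) : F :=
  p.2.elim (C p.1.1 p.1.2) fun k => B k p.1.1 p.1.2

/-- the piece -/
def pc (C : Matrix (Fin a) (Fin b) F) (B : Fin m → Matrix (Fin a) (Fin b) F)
    (I : Fin ρ → Fin a) (J : Fin ρ → Fin b) (p : (Fin a × Fin b) × Option (Fin m)) :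
    Matrix (Fin ρ) (Fin ρ) F :=
  Matrix.of fun u v => if I u = p.1.1 ∧ J v = p.1.2 then val C B p else 0

open Classical in
/-- the variable of a piece -/
noncomputable def vr (C : Matrix (Fin a) (Fin b) F) (B : Fin m → Matrix (Fin a) (Fin b) F)
    (p : (Fin a × Fin b) × Option (Fin m)) : Option (Fin m) :=
  if val C B p ≠ 0 then p.2 else none

theorem pc_ne {C : Matrix (Fin a) (Fin b) F} {B : Fin m → Matrix (Fin a) (Fin b) F}
    {I : Fin ρ → Fin a} {J : Fin ρ → Fin b} {p : (Fin a × Fin b) × Option (Fin m)} {u v : Fin ρ}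
    (h : pc C B I J p u v ≠ 0) : I u = p.1.1 ∧ J v = p.1.2 ∧ val C B p ≠ 0 := by
  unfold pc at h
  rw [Matrix.of_apply] at h
  by_cases h1 : I u = p.1.1 ∧ J v = p.1.2
  · rw [if_pos h1] at h
    exact ⟨h1.1, h1.2, h⟩
  · rw [if_neg h1] at h
    exact absurd rfl h

theorem mat_pc (C : Matrix (Fin a) (Fin b) F) (B : Fin m → Matrix (Fin a) (Fin b) F)
    (I : Fin ρ → Fin a) (J : Fin ρ → Fin b) (x : Fin m → F) :
    mat (pc C B I J) (vr C B) x = (C + ∑ k, x k • B k).submatrix I J := by
  ext u v
  rw [mat, Matrix.sum_apply, Matrix.submatrix_apply, Matrix.add_apply, Matrix.sum_apply]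
  have h1 : ∀ p, (cf (vr C B) x p • pc C B I J p) u v =
      if p.1 = (I u, J v) then p.2.elim 1 x * val C B p else 0 := by
    intro p
    rw [Matrix.smul_apply, smul_eq_mul, pc, Matrix.of_apply]
    by_cases h : p.1 = (I u, J v)
    · rw [if_pos h, if_pos ⟨(congrArg Prod.fst h).symm, (congrArg Prod.snd h).symm⟩]
      by_cases h0 : val C B p = 0
      · rw [h0, mul_zero, mul_zero]
      · rw [cf, vr, if_pos h0]
    · rw [if_neg h, if_neg, mul_zero]
      rintro ⟨h2, h3⟩
      exact h (Prod.ext h2.symm h3.symm)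
  simp only [h1]
  rw [Fintype.sum_prod_type, Finset.sum_eq_single (I u, J v)]
  · simp only [if_true]
    rw [Fintype.sum_option]
    simp [val]
  · intro q _ hq
    exact Finset.sum_eq_zero fun o _ => by rw [if_neg hq]
  · intro h
    exact absurd (Finset.mem_univ _) h

theorem rank_pc (C : Matrix (Fin a) (Fin b) F) (B : Fin m → Matrix (Fin a) (Fin b) F)
    (I : Fin ρ → Fin a) (J : Fin ρ → Fin b) (p : (Fin a × Fin b) × Option (Fin m)) :
    (pc C B I J p).rank ≤ 1 := by
  have h : pc C B I J p = vecMulVec (fun u => if I u = p.1.1 then val C B p else 0)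
      (fun v => if J v = p.1.2 then 1 else 0) := by
    ext u v
    rw [vecMulVec_apply, pc, Matrix.of_apply]
    by_cases h1 : I u = p.1.1
    · by_cases h2 : J v = p.1.2
      · simp [h1, h2]
      · simp [h2]
    · simp [h1]
  rw [h]
  exact Matrix.rank_vecMulVec_le _ _

theorem card_inter_le {α : Type*} [DecidableEq α] (I : Fin ρ → α) (hI : Function.Injective I)
    (R₁ R₂ : Finset α) (w : ℕ) (h : (R₁ ∩ R₂).card ≤ w) :
    ((univ.filter fun u => I u ∈ R₁) ∩ (univ.filter fun u => I u ∈ R₂)).card ≤ w := by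
  refine le_trans ?_ h
  refine Finset.card_le_card_of_injOn I ?_ hI.injOn
  intro u hu
  rw [Finset.mem_coe, Finset.mem_inter, Finset.mem_filter, Finset.mem_filter] at hu
  rw [Finset.mem_coe, Finset.mem_inter]
  exact ⟨hu.1.2, hu.2.2⟩

theorem cut_pc {C : Matrix (Fin a) (Fin b) F} {B : Fin m → Matrix (Fin a) (Fin b) F}
    {I : Fin ρ → Fin a} {J : Fin ρ → Fin b} (hI : Function.Injective I)
    (hJ : Function.Injective J) (w : ℕ) (S : Finset ((Fin a × Fin b) × Option (Fin m)))
    (R₁ R₂ : Finset (Fin a)) (C₁ C₂ : Finset (Fin b))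
    (h1 : ∀ p ∈ S, val C B p ≠ 0 → p.1.1 ∈ R₁ ∧ p.1.2 ∈ C₁)
    (h2 : ∀ p, p ∉ S → val C B p ≠ 0 → p.1.1 ∈ R₂ ∧ p.1.2 ∈ C₂)
    (hr : (R₁ ∩ R₂).card ≤ w) (hc : (C₁ ∩ C₂).card ≤ w) : Cut (pc C B I J) w S := by
  constructor
  · refine cdim_add_le _ w S (univ.filter fun u => I u ∈ R₁) (univ.filter fun u => I u ∈ R₂)
      ?_ ?_ (card_inter_le I hI _ _ w hr)
    · intro p hp u hu v
      by_contra h0
      obtain ⟨e1, e2, e3⟩ := pc_ne h0
      exact hu (Finset.mem_filter.2 ⟨Finset.mem_univ _, e1 ▸ (h1 p hp e3).1⟩)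
    · intro p hp u hu v
      by_contra h0
      obtain ⟨e1, e2, e3⟩ := pc_ne h0
      exact hu (Finset.mem_filter.2 ⟨Finset.mem_univ _, e1 ▸ (h2 p hp e3).1⟩)
  · refine cdim_add_le (fun p => (pc C B I J p).transpose) w S
      (univ.filter fun u => J u ∈ C₁) (univ.filter fun u => J u ∈ C₂)
      ?_ ?_ (card_inter_le J hJ _ _ w hc)
    · intro p hp u hu v
      by_contra h0
      rw [Matrix.transpose_apply] at h0
      obtain ⟨e1, e2, e3⟩ := pc_ne h0
      exact hu (Finset.mem_filter.2 ⟨Finset.mem_univ _, e2 ▸ (h1 p hp e3).2⟩)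
    · intro p hp u hu v
      by_contra h0
      rw [Matrix.transpose_apply] at h0
      obtain ⟨e1, e2, e3⟩ := pc_ne h0
      exact hu (Finset.mem_filter.2 ⟨Finset.mem_univ _, e2 ▸ (h2 p hp e3).2⟩)

/-- a comb with the given leaves -/
def comb {E : Type} : List E → BT E
  | [] => .nil
  | p :: L => .node (.leaf p) (comb L)

theorem leaves_comb {E : Type} (L : List E) : (comb L).leaves = L := by
  induction L with
  | nil => rfl
  | cons p L ih =>
    show [p] ++ (comb L).leaves = p :: L
    rw [ih]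
    rfl

/-- every leaf is replaced by a comb -/
def expand {E E' : Type} (vars : E' → List E) : BT E' → BT E
  | .nil => .nil
  | .leaf q => comb (vars q)
  | .node l r => .node (expand vars l) (expand vars r)

theorem leaves_expand {E E' : Type} (vars : E' → List E) (t : BT E') :
    (expand vars t).leaves = t.leaves.flatMap vars := by
  induction t with
  | nil => rfl
  | leaf q =>
    show (comb (vars q)).leaves = _
    rw [leaves_comb]
    simp [BT.leaves]
  | node l r hl hr =>
    show (expand vars l).leaves ++ (expand vars r).leaves = _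
    rw [hl, hr]
    simp [BT.leaves]

theorem good_comb {C : Matrix (Fin a) (Fin b) F} {B : Fin m → Matrix (Fin a) (Fin b) F}
    {I : Fin ρ → Fin a} {J : Fin ρ → Fin b} (hI : Function.Injective I)
    (hJ : Function.Injective J) (w : ℕ) (hw : 1 ≤ w) (q : Fin a × Fin b)
    (L : List ((Fin a × Fin b) × Option (Fin m))) (hL : ∀ p ∈ L, p.1 = q) :
    Good (pc C B I J) (fun p => vr C B p ≠ none) w (comb L) := by
  classical
  have hs : ∀ L' : List ((Fin a × Fin b) × Option (Fin m)), (∀ p ∈ L', p.1 = q) →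
      Kal.Sep (pc C B I J) (fun p => vr C B p ≠ none) w L' := by
    intro L' hL'
    refine ⟨L'.toFinset, fun p _ => List.mem_toFinset, ?_⟩
    refine cut_pc hI hJ w _ {q.1} univ {q.2} univ ?_ ?_ ?_ ?_
    · intro p hp _
      rw [hL' p (List.mem_toFinset.1 hp)]
      exact ⟨Finset.mem_singleton_self _, Finset.mem_singleton_self _⟩
    · intro p _ _
      exact ⟨Finset.mem_univ _, Finset.mem_univ _⟩
    · rw [Finset.inter_univ, Finset.card_singleton]
      exact hw
    · rw [Finset.inter_univ, Finset.card_singleton]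
      exact hw
  induction L with
  | nil => trivial
  | cons p L ih =>
    refine ⟨hs [p] fun p' hp' => hL p' ?_, ih fun p' hp' => hL p' (List.mem_cons_of_mem _ hp'), ?_⟩
    · rw [List.mem_singleton] at hp'
      rw [hp']
      exact List.mem_cons_self
    · rw [leaves_comb]
      exact hs _ hL

/-- the pieces with variables at a position -/
noncomputable def vars (C : Matrix (Fin a) (Fin b) F) (B : Fin m → Matrix (Fin a) (Fin b) F)
    (q : Fin a × Fin b) : List ((Fin a × Fin b) × Option (Fin m)) := by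
  classical
  exact ((univ.filter fun k => B k q.1 q.2 ≠ 0).toList).map fun k => (q, some k)

theorem mem_vars {C : Matrix (Fin a) (Fin b) F} {B : Fin m → Matrix (Fin a) (Fin b) F}
    {q : Fin a × Fin b} {p : (Fin a × Fin b) × Option (Fin m)} :
    p ∈ vars C B q ↔ p.1 = q ∧ vr C B p ≠ none := by
  classical
  unfold vars
  rw [List.mem_map]
  constructor
  · rintro ⟨k, hk, rfl⟩
    rw [Finset.mem_toList, Finset.mem_filter] at hk
    refine ⟨rfl, ?_⟩
    have h1 : val C B (q, some k) ≠ 0 := hk.2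
    rw [vr, if_pos h1]
    exact Option.some_ne_none k
  · rintro ⟨rfl, h⟩
    rw [vr] at h
    split_ifs at h with h1
    · obtain ⟨k, hk⟩ := Option.ne_none_iff_exists'.1 h
      refine ⟨k, ?_, Prod.ext rfl hk.symm⟩
      rw [Finset.mem_toList, Finset.mem_filter]
      refine ⟨Finset.mem_univ _, ?_⟩
      rw [val, hk] at h1
      exact h1
    · exact absurd rfl h

theorem good_expand {C : Matrix (Fin a) (Fin b) F} {B : Fin m → Matrix (Fin a) (Fin b) F}
    {I : Fin ρ → Fin a} {J : Fin ρ → Fin b} (hI : Function.Injective I)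
    (hJ : Function.Injective J) (w : ℕ) (hw : 1 ≤ w) (t : BT (Fin a × Fin b))
    (L : List (Fin a × Fin b)) (hW : Width w t L)
    (hsupp : ∀ p, val C B p ≠ 0 → p.1 ∈ t.leaves ∨ p.1 ∈ L) :
    Good (pc C B I J) (fun p => vr C B p ≠ none) w (expand (vars C B) t) := by
  classical
  induction t generalizing L with
  | nil => trivial
  | leaf q => exact good_comb hI hJ w hw q _ fun p hp => (mem_vars.1 hp).1
  | node l r hl hr =>
    obtain ⟨w1, w2, w3, w4⟩ := hW
    refine ⟨hl _ w3 ?_, hr _ w4 ?_, ?_⟩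
    · intro p hp
      rcases hsupp p hp with h | h
      · rcases List.mem_append.1 h with h | h
        · exact Or.inl h
        · exact Or.inr (List.mem_append_left _ h)
      · exact Or.inr (List.mem_append_right _ h)
    · intro p hp
      rcases hsupp p hp with h | h
      · rcases List.mem_append.1 h with h | h
        · exact Or.inr (List.mem_append_left _ h)
        · exact Or.inl h
      · exact Or.inr (List.mem_append_right _ h)
    · refine ⟨univ.filter fun p => p.1 ∈ l.leaves ++ r.leaves, ?_, ?_⟩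
      · intro p hp
        rw [Finset.mem_filter, leaves_expand, leaves_expand, ← List.flatMap_append,
          List.mem_flatMap]
        constructor
        · rintro ⟨-, h⟩
          exact ⟨p.1, h, mem_vars.2 ⟨rfl, hp⟩⟩
        · rintro ⟨q, hq, hpq⟩
          rw [(mem_vars.1 hpq).1]
          exact ⟨Finset.mem_univ _, hq⟩
      · refine cut_pc hI hJ w _ _ _ _ _ ?_ ?_ w1 w2
        · intro p hp _
          have h := (Finset.mem_filter.1 hp).2
          exact ⟨List.mem_toFinset.2 (List.mem_map_of_mem h),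
            List.mem_toFinset.2 (List.mem_map_of_mem h)⟩
        · intro p hp h0
          rcases hsupp p h0 with h | h
          · exact (hp (Finset.mem_filter.2 ⟨Finset.mem_univ _, h⟩)).elim
          · exact ⟨List.mem_toFinset.2 (List.mem_map_of_mem h),
              List.mem_toFinset.2 (List.mem_map_of_mem h)⟩

theorem nodup_vars (C : Matrix (Fin a) (Fin b) F) (B : Fin m → Matrix (Fin a) (Fin b) F)
    (q : Fin a × Fin b) : (vars C B q).Nodup := by
  classical
  unfold vars
  refine List.Nodup.map ?_ (Finset.nodup_toList _)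
  intro k k' h
  exact Option.some_injective _ (congrArg Prod.snd h)

open Classical in
theorem card_wild_le (C : Matrix (Fin a) (Fin b) F) (B : Fin m → Matrix (Fin a) (Fin b) F) :
    (univ.filter fun p => vr C B p ≠ none).card ≤
      ∑ k, (univ.filter fun q : Fin a × Fin b => B k q.1 q.2 ≠ 0).card := by
  classical
  have h : (univ.filter fun p => vr C B p ≠ none) ⊆
      univ.biUnion fun k : Fin m =>
        (univ.filter fun q : Fin a × Fin b => B k q.1 q.2 ≠ 0).image fun q => (q, some k) := by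
    intro p hp
    have h1 := (Finset.mem_filter.1 hp).2
    have h2 := mem_vars.2 ⟨rfl, h1⟩
    unfold vars at h2
    rw [List.mem_map] at h2
    obtain ⟨k, hk, hkp⟩ := h2
    rw [Finset.mem_toList, Finset.mem_filter] at hk
    rw [Finset.mem_biUnion]
    refine ⟨k, Finset.mem_univ _, Finset.mem_image.2 ⟨p.1, ?_, hkp⟩⟩
    exact Finset.mem_filter.2 ⟨Finset.mem_univ _, hk.2⟩
  refine (Finset.card_le_card h).trans (Finset.card_biUnion_le.trans ?_)
  exact Finset.sum_le_sum fun k _ => Finset.card_image_le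

end mat

open Classical in
/-- symbolic matrices of small branch width -/
theorem mainBW.{u} (hT : StMainTree.{u}) (h9 : StBal) (h12 : StGrid.{u}) (h14 : StDet.{u})
    (F : Type u) [Field F] [CharZero F] (a b m : ℕ) (C : Matrix (Fin a) (Fin b) F)
    (B : Fin m → Matrix (Fin a) (Fin b) F) (t : BT (Fin a × Fin b)) (w s R β N D : ℕ)
    (hnd : t.leaves.Nodup)
    (hsupp : ∀ i j, (C i j ≠ 0 ∨ ∃ k, B k i j ≠ 0) → (i, j) ∈ t.leaves)
    (hW : Width w t [])
    (hs : ∑ k, (univ.filter fun q : Fin a × Fin b => B k q.1 q.2 ≠ 0).card ≤ s)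
    (hw : 1 ≤ w) (hR : 1 ≤ R) (hβ : 2 * (s / R) + 2 ≤ β) (hN : 18 * R * w ^ 2 ≤ N)
    (hD : s ≤ D) (x : Fin m → F) :
    ∃ h ∈ hits m β N D,
      (C + ∑ k, x k • B k).rank ≤ (C + ∑ k, (h k : F) • B k).rank := by
  classical
  obtain ⟨ρ, hρ, I, J, hIJ⟩ : ∃ ρ, (C + ∑ k, x k • B k).rank = ρ ∧
      ∃ (I : Fin ρ → Fin a) (J : Fin ρ → Fin b), ((C + ∑ k, x k • B k).submatrix I J).det ≠ 0 :=
    ⟨_, rfl, Pool.Agent.Lib.MP_64d474_lc.exists_minor (C + ∑ k, x k • B k)⟩
  have hI : Function.Injective I := by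
    intro u v huv
    by_contra hne
    exact hIJ (Matrix.det_zero_of_row_eq hne (by ext j; simp [huv]))
  have hJ : Function.Injective J := by
    intro u v huv
    by_contra hne
    exact hIJ (Matrix.det_zero_of_column_eq hne (by intro j; simp [huv]))
  have hval : ∀ p, val C B p ≠ 0 → p.1 ∈ t.leaves := by
    rintro ⟨⟨i, j⟩, o⟩ hp
    rcases o with _ | k
    · exact hsupp i j (Or.inl hp)
    · exact hsupp i j (Or.inr ⟨k, hp⟩)
  have hgood := good_expand (C := C) (B := B) hI hJ w hw t [] hW
    (fun p hp => Or.inl (hval p hp))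
  have hnd' : (expand (vars C B) t).leaves.Nodup := by
    rw [leaves_expand, List.nodup_flatMap]
    refine ⟨fun q _ => nodup_vars C B q, ?_⟩
    refine List.Pairwise.imp ?_ hnd
    intro q q' hqq p hp hp'
    exact hqq ((mem_vars.1 hp).1.symm.trans (mem_vars.1 hp').1)
  have hleaf : ∀ p, p ∈ (expand (vars C B) t).leaves ↔ vr C B p ≠ none := by
    intro p
    rw [leaves_expand, List.mem_flatMap]
    constructor
    · rintro ⟨q, -, hq⟩
      exact (mem_vars.1 hq).2
    · intro hp
      refine ⟨p.1, hval p ?_, mem_vars.2 ⟨rfl, hp⟩⟩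
      intro h0
      apply hp
      rw [vr, if_neg (not_not.2 h0)]
  have hcard := card_wild_le C B
  have hlen : (expand (vars C B) t).leaves.length ≤ s := by
    rw [← List.toFinset_card_of_nodup hnd']
    refine (Finset.card_le_card fun p hp => ?_).trans (hcard.trans hs)
    rw [Finset.mem_filter]
    exact ⟨Finset.mem_univ _, (hleaf p).1 (List.mem_toFinset.1 hp)⟩
  have hdeg : min (Fintype.card (Fin ρ))
      (∑ p ∈ univ.filter (fun p => vr C B p ≠ none), (pc C B I J p).rank) ≤ D := by
    refine (min_le_right _ _).trans (le_trans ?_ hD)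
    refine (Finset.sum_le_sum fun p _ => rank_pc C B I J p).trans ?_
    rw [Finset.sum_const, smul_eq_mul, mul_one]
    exact hcard.trans hs
  obtain ⟨h, hh, hdet⟩ := mainTree hT h9 h12 h14 F (Fin ρ) ((Fin a × Fin b) × Option (Fin m))
    (pc C B I J) m (vr C B) (expand (vars C B) t) w s R β N D hgood hnd' hleaf hlen hw hR hβ hN
    hdeg x (by rw [mat_pc]; exact hIJ)
  refine ⟨h, hh, ?_⟩
  rw [mat_pc] at hdet
  have h3 := Matrix.rank_of_det_ne_zero hdet
  rw [Fintype.card_fin] at h3
  rw [hρ, ← h3]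
  have h4 : (C + ∑ k, (h k : F) • B k).submatrix I J =
      (1 : Matrix (Fin a) (Fin a) F).submatrix I id * (C + ∑ k, (h k : F) • B k) *
        (1 : Matrix (Fin b) (Fin b) F).submatrix id J := by
    ext i j
    simp [Matrix.mul_apply, Matrix.one_apply]
  rw [h4]
  exact (Matrix.rank_mul_le_left _ _).trans (Matrix.rank_mul_le_right _ _)

end Pool.Agent.Lib.MP_64d474_lc.BW
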